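import Pool.Agent.U280.OL.Stm
import Pool.Agent.U643.OD.B

/-!
# Project OL, package Q8: the Bessel inequality with the factor `1/2` on the product

Co-authors: helper280 (project, statement), helper643, helper122 (the cases of project OD and OE), helper438
(adaptation to the product).
-/

set_option autoImplicit false

open MeasureTheory Set Filter Topology

namespace Pool.Agent.U438.OL

open Pool.Agent.U280.OD Pool.Agent.U280.OE Pool.Agent.U280.OL Pool.Agent.U643.OD

/-- Package Q8 of project OL. -/
theorem t_Q8 : Q8 := by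
  intro d m N u hu ho hFB v hvc hvs hv1 s hs x
  set K : P d m → ℝ := fun z => G s (x - z.1) * v z.2 with hK
  have hKc : Continuous K := ((G_cont s x).comp continuous_fst).mul (hvc.comp continuous_snd)
  have hv2 : Integrable fun y => v y ^ 2 := by
    refine (hvc.pow 2).integrable_of_hasCompactSupport ?_
    have := hvs.comp_left (g := fun t : ℝ => t ^ 2) (by simp)
    exact this
  have hG2 : Integrable fun y : E d => G s (x - y) ^ 2 := (G_sq_int hs).comp_sub_left x
  have hKe : (fun z => K z ^ 2) = fun z : P d m => G s (x - z.1) ^ 2 * v z.2 ^ 2 := by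
    funext z
    rw [hK]
    simp only
    ring
  have hk2 : Integrable fun z => K z ^ 2 := by
    rw [hKe]
    exact hG2.mul_prod hv2
  have hk2' : ∫ z, K z ^ 2 ≤ (8 * Real.pi * s) ^ (-(d : ℝ) / 2) := by
    rw [hKe]
    have h1 : ∫ z : P d m, G s (x - z.1) ^ 2 * v z.2 ^ 2 =
        (∫ y : E d, G s (x - y) ^ 2) * ∫ y, v y ^ 2 :=
      integral_prod_mul (fun y : E d => G s (x - y) ^ 2) (fun y => v y ^ 2)
    have h2 : ∫ y : E d, G s (x - y) ^ 2 = (8 * Real.pi * s) ^ (-(d : ℝ) / 2) := by
      rw [← G_sq_integral hs]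
      exact integral_sub_left_eq_self (fun y : E d => G s y ^ 2) volume x
    rw [h1, h2]
    have h3 : 0 ≤ (8 * Real.pi * s) ^ (-(d : ℝ) / 2) := by
      have := Real.pi_pos
      positivity
    calc _ ≤ (8 * Real.pi * s) ^ (-(d : ℝ) / 2) * 1 := mul_le_mul_of_nonneg_left hv1 h3
      _ = _ := mul_one _
  have kM : MemLp K 2 volume := (memLp_two_iff_integrable_sq hKc.aestronglyMeasurable).2 hk2
  have kCM : MemLp (fun y => ((K y : ℝ) : ℂ)) 2 volume := kM.ofReal
  set c : Fin N → ℂ := fun n => ∫ y, ((K y : ℝ) : ℂ) * u n y with hcdef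
  set w : P d m → ℂ := fun y => ∑ n, star (c n) * u n y with hw
  have wM : MemLp w 2 volume :=
    memLp_finsetSum Finset.univ fun n _ => (hu n).const_mul (star (c n))
  set S : ℝ := ∑ n, ‖c n‖ ^ 2 with hS
  have hcc : ∑ n, star (c n) * c n = (S : ℂ) := by
    rw [hS]
    push_cast
    refine Finset.sum_congr rfl fun n _ => ?_
    exact Complex.conj_mul' (c n)
  -- the integral of K w
  have h1 : ∫ y, ((K y : ℝ) : ℂ) * w y = (S : ℂ) := by
    rw [← hcc, hw]
    simp_rw [Finset.mul_sum]
    rw [integral_finsetSum]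
    · refine Finset.sum_congr rfl fun n _ => ?_
      rw [hcdef, ← integral_const_mul]
      refine integral_congr_ae (Filter.Eventually.of_forall fun y => ?_)
      simp only
      ring
    · intro n _
      exact kCM.integrable_mul ((hu n).const_mul (star (c n)))
  -- the integral of |w|²
  have h2 : ∫ y, star (w y) * w y = (S : ℂ) := by
    have e : ∀ y, star (w y) * w y = ∑ n, ∑ l, (c n * star (c l)) * (star (u n y) * u l y) := by
      intro y
      rw [hw]
      simp only [star_sum, star_mul', star_star, Finset.sum_mul, Finset.mul_sum]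
      rw [Finset.sum_comm]
      refine Finset.sum_congr rfl fun n _ => Finset.sum_congr rfl fun l _ => ?_
      ring
    simp_rw [e]
    have hi : ∀ n l, Integrable fun y => (c n * star (c l)) * (star (u n y) * u l y) := by
      intro n l
      have h3 : Integrable fun y => star (u n y) * u l y := (hu n).star.integrable_mul (hu l)
      exact h3.const_mul _
    have ho' : ∀ n l, ∫ y, star (u n y) * u l y = if n = l then (1 : ℂ) else 0 := ho
    rw [integral_finsetSum _ fun n _ => integrable_finsetSum _ fun l _ => hi n l]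
    rw [← hcc]
    refine Finset.sum_congr rfl fun n _ => ?_
    rw [integral_finsetSum _ fun l _ => hi n l]
    simp_rw [integral_const_mul, ho']
    simp [mul_comm]
  -- real functions
  obtain ⟨B, hB⟩ : ∃ B : Set (Fin m → ℝ), B = {y | 0 ≤ v y} := ⟨_, rfl⟩
  have hBm : MeasurableSet B := by rw [hB]; exact measurableSet_le measurable_const hvc.measurable
  obtain ⟨B', hB'⟩ : ∃ B' : Set (P d m), B' = {z | z.2 ∈ B} := ⟨_, rfl⟩
  have hBm' : MeasurableSet B' := by rw [hB']; exact measurable_snd hBm
  set r : P d m → ℝ := fun y => (w y).re with hr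
  set a : P d m → ℝ := fun y => B'.indicator (fun z => ‖w z‖) y - B'ᶜ.indicator (fun z => ‖w z‖) y with ha
  have ha1 : ∀ y ∈ B', a y = ‖w y‖ := by
    intro y hy
    simp only [ha]
    rw [indicator_of_mem hy, indicator_of_notMem (by simpa using hy), sub_zero]
  have ha2 : ∀ y ∉ B', a y = -‖w y‖ := by
    intro y hy
    simp only [ha]
    rw [indicator_of_notMem hy, indicator_of_mem (by simpa using hy), zero_sub]
  have haa : ∀ y, a y * a y = ‖w y‖ * ‖w y‖ := by
    intro y
    by_cases hy : y ∈ B'
    · rw [ha1 y hy]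
    · rw [ha2 y hy]; ring
  have rM : MemLp r 2 volume := wM.re
  have aM : MemLp a 2 volume := (wM.norm.indicator hBm').sub (wM.norm.indicator hBm'.compl)
  have ikr : Integrable fun y => K y * r y := kM.integrable_mul rM
  have ika : Integrable fun y => K y * a y := kM.integrable_mul aM
  have iar : Integrable fun y => a y * r y := aM.integrable_mul rM
  have iaa : Integrable fun y => a y * a y := aM.integrable_mul aM
  have j1 : ∫ y, K y * r y = S := by
    have hi : Integrable fun y => ((K y : ℝ) : ℂ) * w y := kCM.integrable_mul wM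
    have := Complex.reCLM.integral_comp_comm hi
    rw [h1] at this
    simpa using this
  have j2 : ∫ y, a y * a y = S := by
    have hi : Integrable fun y => star (w y) * w y := wM.star.integrable_mul wM
    have := Complex.reCLM.integral_comp_comm hi
    rw [h2] at this
    rw [show S = Complex.reCLM (S : ℂ) by simp, ← this]
    refine integral_congr_ae (Filter.Eventually.of_forall fun y => ?_)
    simp only
    have e : star (w y) * w y = ((‖w y‖ : ℂ)) ^ 2 := Complex.conj_mul' (w y)
    rw [e, ← Complex.ofReal_pow, Complex.reCLM_apply, Complex.ofReal_re, haa]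
    ring
  -- the two parts of the integral of `a Re w`
  have iwr : Integrable fun y => ‖w y‖ * r y := wM.norm.integrable_mul rM
  have j3' : ∀ D : Set (Fin m → ℝ), MeasurableSet D → ∫ y in {z : P d m | z.2 ∈ D}, ‖w y‖ * r y = 0 := by
    intro D hD
    have wCM : MemLp (fun y => ((‖w y‖ : ℝ) : ℂ)) 2 volume := wM.norm.ofReal
    have hi : Integrable (fun y => ((‖w y‖ : ℝ) : ℂ) * w y) := wCM.integrable_mul wM
    have := Complex.reCLM.integral_comp_comm (hi.restrict (s := {z : P d m | z.2 ∈ D}))
    have h0 : ∫ y in {z : P d m | z.2 ∈ D}, ((‖w y‖ : ℝ) : ℂ) * w y = 0 :=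
      hFB (fun n => star (c n)) D hD
    rw [h0] at this
    simpa using this
  have j3 : ∫ y, a y * r y = 0 := by
    have e : (fun y => a y * r y) = fun y => B'.indicator (fun z => ‖w z‖ * r z) y -
        B'ᶜ.indicator (fun z => ‖w z‖ * r z) y := by
      funext y
      by_cases hy : y ∈ B'
      · rw [ha1 y hy, indicator_of_mem hy, indicator_of_notMem (by simpa using hy), sub_zero]
      · rw [ha2 y hy, indicator_of_notMem hy, indicator_of_mem (by simpa using hy), zero_sub]
        ring
    rw [e, integral_sub (iwr.indicator hBm') (iwr.indicator hBm'.compl), integral_indicator hBm',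
      integral_indicator hBm'.compl]
    have e1 := j3' B hBm
    have e2 := j3' Bᶜ hBm.compl
    have e3 : B'ᶜ = {z : P d m | z.2 ∈ Bᶜ} := by
      rw [hB']; rfl
    rw [← hB'] at e1
    rw [← e3] at e2
    rw [e1, e2, sub_zero]
  have j4 : S ≤ ∫ y, K y * a y := by
    rw [← j1]
    refine integral_mono ikr ika fun y => ?_
    show K y * r y ≤ K y * a y
    have hGn : 0 ≤ G s (x - y.1) := G_nonneg hs _
    by_cases hy : y ∈ B'
    · rw [ha1 y hy]
      have h3 : 0 ≤ v y.2 := by
        rw [hB', hB] at hy; exact hy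
      exact mul_le_mul_of_nonneg_left (Complex.re_le_norm _) (mul_nonneg hGn h3)
    · rw [ha2 y hy]
      have h3 : v y.2 ≤ 0 := by
        rw [hB', hB] at hy
        exact (not_le.1 hy).le
      have h4 : K y ≤ 0 := mul_nonpos_of_nonneg_of_nonpos hGn h3
      have h5 : -‖w y‖ ≤ r y := (abs_le.1 (Complex.abs_re_le_norm (w y))).1
      exact mul_le_mul_of_nonpos_left h5 h4
  have j5 : 0 ≤ ∫ y, (K y ^ 2 - 2 * (K y * a y) + 2 * (a y * a y) - 2 * (K y * r y) +
      2 * (a y * r y)) := by
    refine integral_nonneg fun y => ?_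
    have h3 : r y ^ 2 ≤ a y * a y := by
      rw [haa, ← sq_abs, ← sq]
      exact pow_le_pow_left₀ (abs_nonneg _) (Complex.abs_re_le_norm _) 2
    show (0 : ℝ) ≤ K y ^ 2 - 2 * (K y * a y) + 2 * (a y * a y) - 2 * (K y * r y) + 2 * (a y * r y)
    nlinarith [sq_nonneg (K y - a y - r y)]
  have j6 : ∫ y, (K y ^ 2 - 2 * (K y * a y) + 2 * (a y * a y) - 2 * (K y * r y) +
      2 * (a y * r y)) = (∫ y, K y ^ 2) - 2 * (∫ y, K y * a y) + 2 * S - 2 * S + 2 * 0 := by
    rw [integral_add, integral_sub, integral_add, integral_sub, integral_const_mul,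
      integral_const_mul, integral_const_mul, integral_const_mul, j1, j2, j3]
    · exact hk2
    · exact ika.const_mul 2
    · exact hk2.sub (ika.const_mul 2)
    · exact iaa.const_mul 2
    · exact (hk2.sub (ika.const_mul 2)).add (iaa.const_mul 2)
    · exact ikr.const_mul 2
    · exact ((hk2.sub (ika.const_mul 2)).add (iaa.const_mul 2)).sub (ikr.const_mul 2)
    · exact iar.const_mul 2
  rw [j6] at j5
  show ∑ n, ‖c n‖ ^ 2 ≤ _
  rw [← hS]
  linarith

end Pool.Agent.U438.OL
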